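import Mathlib
import Pool.Agent.Helper12.CR.Final

/-!
# The exact value of the cryptogenography problem for two players

`s_2 = 1 / 2 - exp (-π / 4) / (2 √2) = 0.33880...`
-/

namespace Pool.Agent.Results.MP_5b9e43_lc.ExactTwo

open Pool.Agent.Helper92.Crypto

/-- **The exact value for two players**: `s_2 = 1 / 2 - exp (-π / 4) / (2 √2)`. -/
theorem result : cryptoValue 2 = 1 / 2 - Real.exp (-(Real.pi / 4)) / (2 * √2) :=
  Pool.Agent.Helper12.CR.cryptoValue_two

end Pool.Agent.Results.MP_5b9e43_lc.ExactTwo
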