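import Mathlib
import Pool.Agent.Helper92.CryptoLimit
import Pool.Agent.Helper92.CryptoLowerE
import Pool.Agent.Helper92.CryptoCert128
import Pool.Agent.Helper92.CryptoUpperAll

/-!
# The limit of the cryptogenography value

`s_k` converges to `(1 / 2) ∫ (1 - q(w) ^ 2) / w ^ 2 dw`, where `q` is the survival function of the
levels `d n`.
-/

namespace Pool.Agent.Results.MP_5b9e43_lc.Limit

open Polynomial MeasureTheory Filter Topology Pool.Agent.Helper92.Crypto

theorem value_nonneg (k : ℕ) (hk : 0 < k) : 0 ≤ cryptoValue k := by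
  rw [cryptoValue_eq_val]
  exact mul_nonneg (by positivity) (val_nonneg hk _ _ (fun _ => zero_le_one)
    (fun _ => zero_le_one))

/-- **The limit of the optimal winning probability.** There is exactly one pair `(d, P)` of levels
and polynomials with `IsLevels d P`; the values `s_k` converge to `limitValue d P` at rate
`2 / (k - 1)`; and this number lies between `(3 - (e - 2) ^ 2) / 4 > 0.621` and `0.6228`. -/
theorem result : ∃ (d : ℕ → ℝ) (P : ℕ → ℝ[X]), IsLevels d P ∧
    (∀ (d' : ℕ → ℝ) (P' : ℕ → ℝ[X]), IsLevels d' P' → d' = d ∧ P' = P) ∧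
    IntegrableOn (fun w : ℝ => (1 - surv d P w ^ 2) / w ^ 2) (Set.Ioi 0) ∧
    Tendsto (fun k : ℕ => cryptoValue k) atTop (𝓝 (limitValue d P)) ∧
    (∀ k : ℕ, 2 ≤ k → |cryptoValue k - limitValue d P| ≤ 2 / ((k : ℝ) - 1)) ∧
    (3 - (Real.exp 1 - 2) ^ 2) / 4 ≤ limitValue d P ∧
    limitValue d P ≤ 0.6228 := by
  obtain ⟨d, P, h⟩ := exists_levels
  have hlim : Tendsto (fun k : ℕ => cryptoValue k) atTop (𝓝 (limitValue d P)) := by
    rw [Metric.tendsto_atTop]
    intro ε hε
    obtain ⟨n, hn⟩ := exists_nat_gt (1 / ε)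
    refine ⟨2 * (n + 1) + 2, fun k hk => ?_⟩
    rw [Real.dist_eq]
    refine lt_of_le_of_lt (h.value_rate (n + 1) (by omega) k hk) ?_
    have h0 : 0 < 1 / ε := by positivity
    rw [div_lt_comm₀ (by positivity) hε]
    push_cast
    linarith
  have hlow : (3 - (Real.exp 1 - 2) ^ 2) / 4 ≤ limitValue d P := by
    apply le_of_forall_pos_le_add
    intro ε hε
    obtain ⟨K, hK⟩ := Pool.Agent.Helper92.CryptoLowerE.lowerLarge ε hε
    have : (3 - (Real.exp 1 - 2) ^ 2) / 4 - ε ≤ limitValue d P := by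
      refine ge_of_tendsto hlim ?_
      filter_upwards [eventually_ge_atTop K] with k hk using hK k hk
    linarith
  have hup : limitValue d P ≤ 0.6228 := by
    refine le_of_tendsto hlim ?_
    filter_upwards [eventually_ge_atTop 254] with k hk using
      Pool.Agent.Helper92.CryptoCert128.upper254 k hk
  refine ⟨d, P, h, fun d' P' h' => levels_unique h' h, h.tendsto_DD.1, hlim, ?_, hlow, hup⟩
  intro k hk
  have hk2 : (2 : ℝ) ≤ k := by exact_mod_cast hk
  rcases Nat.lt_or_ge k 4 with hk4 | hk4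
  · have h0 : 0 ≤ limitValue d P := by
      refine ge_of_tendsto hlim ?_
      filter_upwards [eventually_gt_atTop 0] with k hk using value_nonneg k hk
    have h1 : limitValue d P ≤ 1 := by linarith
    have h2 : 0 ≤ cryptoValue k := value_nonneg k (by omega)
    have h3 : cryptoValue k ≤ 0.6528 := Pool.Agent.Helper92.CryptoUpperAll.upperAll k (by omega)
    have h4 : (k : ℝ) ≤ 3 := by exact_mod_cast (by omega : k ≤ 3)
    have h5 : (1 : ℝ) ≤ 2 / ((k : ℝ) - 1) := by
      rw [le_div_iff₀ (by linarith)]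
      linarith
    refine le_trans ?_ h5
    rw [abs_le]
    constructor <;> linarith
  · obtain ⟨n, hn⟩ : ∃ n, k / 2 = n + 1 := ⟨k / 2 - 1, by omega⟩
    refine (h.value_rate n (by omega) k (by omega)).trans ?_
    rw [div_le_div_iff₀ (by positivity) (by linarith)]
    have : (k : ℝ) ≤ 2 * (n + 1) + 1 := by exact_mod_cast (by omega : k ≤ 2 * (n + 1) + 1)
    linarith

end Pool.Agent.Results.MP_5b9e43_lc.Limit
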