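import Mathlib
import Pool.Agent.Helper92.CryptoCert128
import Pool.Agent.Helper92.CryptoUpperAll

/-!
# Upper bounds for many players

`s_k ≤ 0.6228` for all `k ≥ 254`, and `s_k ≤ 0.6528` for all `k ≥ 1`.
-/

namespace Pool.Agent.Results.MP_5b9e43_lc.UpperBounds

open Finset Pool.Agent.Helper92.Crypto

/-- **Upper bound**: `s_k ≤ 0.6228` for all `k ≥ 254`, and `s_k ≤ 0.6528` for all `k ≥ 1`. -/
theorem result : (∀ k : ℕ, 254 ≤ k → cryptoValue k ≤ 0.6228) ∧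
    ∀ k : ℕ, 1 ≤ k → cryptoValue k ≤ 0.6528 :=
  ⟨Pool.Agent.Helper92.CryptoCert128.upper254, Pool.Agent.Helper92.CryptoUpperAll.upperAll⟩

end Pool.Agent.Results.MP_5b9e43_lc.UpperBounds
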